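import Mathlib
import Pool.Agent.Helper134_AR.Plane

/-!
# The area of the non-hyperbolic parameters in the families `s R(z ^ n)`
-/

set_option autoImplicit false

open Set Filter Topology MeasureTheory

namespace Pool.Agent.Results.MP_8f2e1c_an.AreaOfNonHyperbolic

/-- `P / Q` is in lowest terms and every critical point (point of the Riemann sphere where the map
is not locally injective) has an orbit converging to an attracting periodic cycle. This is word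
for word the condition of the frozen statement `S05373`. -/
def Hyperbolic (P Q : Polynomial ℂ) : Prop :=
  IsCoprime P Q ∧ ∃ f : OnePoint ℂ → OnePoint ℂ, Continuous f ∧
    (∀ z : ℂ, Q.eval z ≠ 0 →
      f (OnePoint.some z) = OnePoint.some (P.eval z / Q.eval z)) ∧
    ∀ c : OnePoint ℂ, (¬ ∃ U ∈ nhds c, Set.InjOn f U) →
      ∃ z : OnePoint ℂ, ∃ n : ℕ, 0 < n ∧ f^[n] z = z ∧
        (∃ U ∈ nhds z, ∀ w ∈ U,
          Filter.Tendsto (fun k : ℕ => f^[n * k] w) Filter.atTop (nhds z)) ∧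
        Filter.Tendsto (fun k : ℕ => f^[n * k] c) Filter.atTop (nhds z)

/-- The numerator of the derivative of `P / Q`. -/
noncomputable def derivNum (P Q : Polynomial ℂ) : Polynomial ℂ :=
  Polynomial.derivative P * Q - P * Polynomial.derivative Q

/-- `y` is a critical point of `R = P / Q` with `r₁ ≤ 1 / |R(y)| ≤ r₂`. -/
def Active (P Q : Polynomial ℂ) (r₁ r₂ : ℝ) (y : ℂ) : Prop :=
  (derivNum P Q).eval y = 0 ∧ r₁ * ‖P.eval y‖ ≤ ‖Q.eval y‖ ∧ ‖Q.eval y‖ ≤ r₂ * ‖P.eval y‖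

/-- The parameters `s`, `r₁ ≤ |s| ≤ r₂`, for which `s R(z ^ n)`, `R = P / Q`, is not hyperbolic. -/
def NonHyperbolic (P Q : Polynomial ℂ) (r₁ r₂ : ℝ) (n : ℕ) : Set ℂ :=
  {s : ℂ | r₁ ≤ ‖s‖ ∧ ‖s‖ ≤ r₂ ∧
    ¬ Hyperbolic (Polynomial.C s * Polynomial.expand ℂ n P) (Polynomial.expand ℂ n Q)}

theorem sides {a b r₁ r₂ : ℝ} (ha : 0 ≤ a) (hb : 0 ≤ b) (hr₁ : 0 < r₁) (hr : r₁ ≤ r₂)
    (h : ∀ r ∈ Set.Icc r₁ r₂, r * a ≠ b) : r₂ * a < b ∨ b < r₁ * a := by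
  by_contra hcon
  push Not at hcon
  obtain ⟨h1, h2⟩ := hcon
  rcases ha.eq_or_lt with ha0 | ha0
  · apply h r₁ ⟨le_rfl, hr⟩
    rw [← ha0] at h1 ⊢
    linarith
  · apply h (b / a) ⟨by rw [le_div_iff₀ ha0]; exact h2, by rw [div_le_iff₀ ha0]; exact h1⟩
    field_simp

/-- The non-hyperbolic parameters of the family `s R(z ^ n)`, `r₁ ≤ |s| ≤ r₂`, for `R = P / Q` with
`|s R(0)|` and `|s R(∞)|` never equal to one, where `m` bounds the local degrees of `R` at the active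
critical points: in every disc of radius `1 / n` their area is at most `C n ^ (- 2 m / (m - 1))`, the
total area is at most `C n ^ (- (m + 1) / (m - 1))`, and every `s` is within `C n ^ (- m / (m - 1))`
of a hyperbolic parameter. -/
theorem result (P Q : Polynomial ℂ) (hc : IsCoprime P Q) (D : ℕ)
    (hD : D = max P.natDegree Q.natDegree) (hD1 : 1 ≤ D) (r₁ r₂ : ℝ) (hr₁ : 0 < r₁) (hr : r₁ ≤ r₂)
    (h : ∀ r ∈ Set.Icc r₁ r₂, r * ‖P.coeff 0‖ ≠ ‖Q.coeff 0‖ ∧ r * ‖P.coeff D‖ ≠ ‖Q.coeff D‖)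
    (m : ℕ) (hm : 2 ≤ m)
    (hact : ∀ y : ℂ, Active P Q r₁ r₂ y → (derivNum P Q).rootMultiplicity y < m) :
    ∃ C : ℝ, ∃ n₀ : ℕ, ∀ n : ℕ, n₀ ≤ n →
      (∀ s : ℂ, volume {s' ∈ NonHyperbolic P Q r₁ r₂ n | ‖s' - s‖ ≤ 1 / n} ≤
        ENNReal.ofReal (C * (n : ℝ) ^ (-(2 * (m : ℝ) / (m - 1))))) ∧
      volume (NonHyperbolic P Q r₁ r₂ n) ≤
        ENNReal.ofReal (C * (n : ℝ) ^ (-(((m : ℝ) + 1) / (m - 1)))) ∧
      ∀ s : ℂ, r₁ ≤ ‖s‖ → ‖s‖ ≤ r₂ → ∃ s' : ℂ,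
        ‖s' - s‖ ≤ C * (n : ℝ) ^ (-((m : ℝ) / (m - 1))) ∧
        Hyperbolic (Polynomial.C s' * Polynomial.expand ℂ n P) (Polynomial.expand ℂ n Q) := by
  have hs0 := sides (norm_nonneg _) (norm_nonneg _) hr₁ hr fun r hr => (h r hr).1
  have hsD := sides (norm_nonneg _) (norm_nonneg _) hr₁ hr fun r hr => (h r hr).2
  obtain ⟨C, -, n₀, hn₀⟩ := Pool.Agent.Helper134.AR.main_area (P := P) (Q := Q) hc hD hD1
    hr₁ hr hs0 hsD hm (fun y h1 h2 h3 => hact y ⟨h1, h2, h3⟩)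
  refine ⟨C, n₀, fun n hn => ?_⟩
  obtain ⟨h1, h2, h3⟩ := hn₀ n hn
  refine ⟨fun s => ?_, h2, h3⟩
  refine le_trans (measure_mono ?_) (h1 s)
  rintro s' ⟨⟨h4, h5, h6⟩, h7⟩
  exact ⟨h7, h4, h5, h6⟩

end Pool.Agent.Results.MP_8f2e1c_an.AreaOfNonHyperbolic
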