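import Mathlib
import Pool.Agent.H363Roots.RatMain
import Pool.Agent.H363Roots.Iid2

/-!
# Rational maps with independent random zeros and poles

Let `R` be the rational map `∏ (x - Z i) / ∏ (x - W i)` of degree `N` whose zeros `Z i` and poles
`W i` are independent random variables in a disc, with laws which need neither densities nor be
identical. Outside an event of exponentially small probability, all the multiples `a R` for which
the level set `{mean of log |a R| = 0}` is regular (and may separate the sphere into many regions)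
are hyperbolic. If the zeros have the law `μ` and the poles the law `ν` this holds for all `a` in a
window `|log |a| - β N| ≤ ρ N` around every regular level of the difference of the potentials.
-/

set_option autoImplicit false

open Polynomial Filter Topology MeasureTheory ProbabilityTheory

namespace Pool.Agent.Results.MP_8f2e1c_an.RandomZerosPoles

/-- `P / Q` is in lowest terms and every critical point (point of the Riemann sphere where the map
is not locally injective) has an orbit converging to an attracting periodic cycle. This is word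
for word the condition of the frozen statement `S05373`. -/
def Hyperbolic (P Q : Polynomial ℂ) : Prop :=
  IsCoprime P Q ∧ ∃ f : OnePoint ℂ → OnePoint ℂ, Continuous f ∧
    (∀ z : ℂ, Q.eval z ≠ 0 →
      f (OnePoint.some z) = OnePoint.some (P.eval z / Q.eval z)) ∧
    ∀ c : OnePoint ℂ, (¬ ∃ U ∈ nhds c, Set.InjOn f U) →
      ∃ z : OnePoint ℂ, ∃ n : ℕ, 0 < n ∧ f^[n] z = z ∧
        (∃ U ∈ nhds z, ∀ w ∈ U,
          Filter.Tendsto (fun k : ℕ => f^[n * k] w) Filter.atTop (nhds z)) ∧
        Filter.Tendsto (fun k : ℕ => f^[n * k] c) Filter.atTop (nhds z)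

/-- The monic polynomial with roots `z i`. -/
noncomputable def withRoots {N : ℕ} (z : Fin N → ℂ) : ℂ[X] := ∏ i, (X - C (z i))

/-- The `X i` are independent random variables on the probability space `(Ω, P)` with values in the
disc of radius `M`, and every disc of radius `r` has probability at most `B r ^ s` for each of
them. -/
def Points {Ω ι : Type} [MeasurableSpace Ω] (P : Measure Ω) (M s B : ℝ) (X : ι → Ω → ℂ) : Prop :=
  IsProbabilityMeasure P ∧ (∀ i, Measurable (X i)) ∧ iIndepFun X P ∧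
    (∀ i, ∀ᵐ ω ∂P, ‖X i ω‖ ≤ M) ∧
    ∀ (i : ι) (z : ℂ) (r : ℝ), 0 < r → P {ω | ‖X i ω - z‖ ≤ r} ≤ ENNReal.ofReal (B * r ^ s)

/-- The mean of `log |R x|`, where `R` has the zeros `Z i` and the poles `W i`. -/
noncomputable def meanLog {Ω : Type} [MeasurableSpace Ω] (P : Measure Ω) {N : ℕ}
    (Z W : Fin N → Ω → ℂ) (x : ℂ) : ℝ :=
  (∑ i, ∫ ω, Real.log ‖x - Z i ω‖ ∂P) - ∑ i, ∫ ω, Real.log ‖x - W i ω‖ ∂P

/-- The mean of `R' x / R x`. -/
noncomputable def meanRatio {Ω : Type} [MeasurableSpace Ω] (P : Measure Ω) {N : ℕ}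
    (Z W : Fin N → Ω → ℂ) (x : ℂ) : ℂ :=
  (∑ i, ∫ ω, (x - Z i ω)⁻¹ ∂P) - ∑ i, ∫ ω, (x - W i ω)⁻¹ ∂P

/-- The mean `V x` of `log |a R x|` satisfies `|V ∞| ≥ η N`, `|V 0| ≥ η N`, and every `x` with
`|V x| ≤ η N` has distance at least `η` from the zeros and poles (almost surely) and the mean of
`R' x / R x` has modulus at least `η N`. -/
def Regular {Ω : Type} [MeasurableSpace Ω] (P : Measure Ω) {N : ℕ} (Z W : Fin N → Ω → ℂ) (η : ℝ)
    (a : ℂ) : Prop :=
  η * N ≤ |Real.log ‖a‖| ∧ η * N ≤ |meanLog P Z W 0 + Real.log ‖a‖| ∧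
    ∀ x : ℂ, |meanLog P Z W x + Real.log ‖a‖| ≤ η * N →
      (∀ i, ∀ᵐ ω ∂P, η ≤ ‖x - Z i ω‖ ∧ η ≤ ‖x - W i ω‖) ∧ η * N ≤ ‖meanRatio P Z W x‖

/-- `a R` is hyperbolic for all `a ≠ 0` with the property `A`, where `R` has the zeros `z i` and the
poles `w i`. -/
def HypFor {N : ℕ} (A : ℂ → Prop) (z w : Fin N → ℂ) : Prop :=
  ∀ a : ℂ, a ≠ 0 → A a → Hyperbolic (C a * withRoots z) (withRoots w)

/-- The logarithmic potential of a law. -/
noncomputable def pot (μ : Measure ℂ) (z : ℂ) : ℝ := ∫ w, Real.log ‖z - w‖ ∂μ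

/-- The Cauchy transform of a law. -/
noncomputable def cauchy (μ : Measure ℂ) (z : ℂ) : ℂ := ∫ w, (z - w)⁻¹ ∂μ

/-- The numbers `a` with `|log |a| - β N| ≤ ρ N`. -/
def Win (N : ℕ) (β ρ : ℝ) (a : ℂ) : Prop := |Real.log ‖a‖ - β * N| ≤ ρ * N

/-- The statement for independent zeros and poles of arbitrary laws. -/
def General : Prop :=
  ∀ M s B η : ℝ, 0 < s → 0 < η → ∃ K θ : ℝ, 0 < K ∧ 0 < θ ∧ θ < 1 ∧
    ∀ (Ω : Type) [MeasurableSpace Ω] (P : Measure Ω) (N : ℕ) (Z W : Fin N → Ω → ℂ), 1 ≤ N →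
      Points P M s B (Sum.elim Z W) →
      P {ω | ¬ HypFor (Regular P Z W η) (fun i => Z i ω) (fun i => W i ω)} ≤
        ENNReal.ofReal (K * θ ^ N)

/-- The statement for independent zeros of the law `μ` and poles of the law `ν`. -/
def Identical : Prop :=
  ∀ (μ ν : Measure ℂ) (M s B β : ℝ), IsProbabilityMeasure μ → IsProbabilityMeasure ν → 0 < s →
    (∀ᵐ w ∂μ, ‖w‖ ≤ M) → (∀ᵐ w ∂ν, ‖w‖ ≤ M) →
    (∀ (z : ℂ) (r : ℝ), 0 < r → μ {w | ‖w - z‖ ≤ r} ≤ ENNReal.ofReal (B * r ^ s)) →
    (∀ (z : ℂ) (r : ℝ), 0 < r → ν {w | ‖w - z‖ ≤ r} ≤ ENNReal.ofReal (B * r ^ s)) →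
    β ≠ 0 → pot μ 0 - pot ν 0 ≠ -β →
    (∀ z : ℂ, pot μ z - pot ν z = -β →
      (∃ r : ℝ, 0 < r ∧ μ (Metric.ball z r) = 0 ∧ ν (Metric.ball z r) = 0) ∧
        cauchy μ z ≠ cauchy ν z) →
    ∃ K θ ρ : ℝ, 0 < K ∧ 0 < θ ∧ θ < 1 ∧ 0 < ρ ∧
      ∀ (Ω : Type) [MeasurableSpace Ω] (P : Measure Ω) (Z W : ℕ → Ω → ℂ),
        IsProbabilityMeasure P → (∀ i, Measurable (Sum.elim Z W i)) → iIndepFun (Sum.elim Z W) P →
        (∀ i, P.map (Z i) = μ) → (∀ i, P.map (W i) = ν) →
        (∀ N : ℕ, 1 ≤ N →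
          P {ω | ¬ HypFor (Win N β ρ) (fun i : Fin N => Z i ω) (fun i : Fin N => W i ω)} ≤
            ENNReal.ofReal (K * θ ^ N)) ∧
        ∀ᵐ ω ∂P, ∀ᶠ N : ℕ in atTop,
          HypFor (Win N β ρ) (fun i : Fin N => Z i ω) (fun i : Fin N => W i ω)

theorem frost_two {s B : ℝ} {Ω : Type} [MeasurableSpace Ω] {P : Measure Ω}
    [IsProbabilityMeasure P] {X : Ω → ℝ} (hs : 0 < s)
    (hB : ∀ r : ℝ, 0 < r → P {ω | X ω ≤ r} ≤ ENNReal.ofReal (B * r ^ s)) {r : ℝ} (hr : 0 < r) :
    P {ω | X ω ≤ r} ≤ ENNReal.ofReal (max B 1 * r ^ (min s 2)) := by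
  rcases le_or_gt r 1 with hr1 | hr1
  · refine (hB r hr).trans (ENNReal.ofReal_le_ofReal ?_)
    have h1 : r ^ s ≤ r ^ (min s 2) := Real.rpow_le_rpow_of_exponent_ge hr hr1 (min_le_left _ _)
    calc B * r ^ s ≤ max B 1 * r ^ s := by gcongr; exact le_max_left _ _
      _ ≤ max B 1 * r ^ (min s 2) := by
        have : 0 ≤ max B 1 := le_trans (by norm_num) (le_max_right _ _)
        gcongr
  · have h2 : (1 : ℝ) ≤ max B 1 * r ^ (min s 2) := by
      have h3 : (1 : ℝ) ≤ r ^ (min s 2) :=
        Real.one_le_rpow hr1.le (lt_min hs (by norm_num)).le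
      calc (1 : ℝ) = 1 * 1 := by norm_num
        _ ≤ max B 1 * r ^ (min s 2) := by
          gcongr
          exact le_max_right _ _
    calc P {ω | X ω ≤ r} ≤ 1 := prob_le_one
      _ = ENNReal.ofReal 1 := ENNReal.ofReal_one.symm
      _ ≤ _ := ENNReal.ofReal_le_ofReal h2

theorem general : General := by
  intro M s B η hs hη
  obtain ⟨K, θ, hK, hθ0, hθ1, h⟩ := Pool.Agent.H363Roots.mainQ0 (max M 0) (min s 2) (max B 1) η
    (le_max_right _ _) (le_trans (by norm_num) (le_max_right _ _)) (lt_min hs (by norm_num))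
    (min_le_right _ _) hη
  refine ⟨K, θ, hK, hθ0, hθ1, ?_⟩
  intro Ω _ P N Z W _ hR
  obtain ⟨hP, hX, hind, hM, hB⟩ := hR
  refine le_trans (measure_mono ?_) (h Ω P N (Sum.elim Z W) hX hind (fun i => by
    filter_upwards [hM i] with ω hω
    exact hω.trans (le_max_left _ _)) (fun i z r hr => frost_two hs (hB i z) hr))
  intro ω hω hgood
  apply hω
  intro a ha hreg
  obtain ⟨h1, h2, h3⟩ := hreg
  have hVq : ∀ x : ℂ, Pool.Agent.H363Roots.Vq P (Sum.elim Z W) x = meanLog P Z W x := by
    intro x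
    unfold Pool.Agent.H363Roots.Vq meanLog
    rw [Fintype.sum_sum_type]
    simp only [Pool.Agent.H363Roots.sg, Sum.elim_inl, Sum.elim_inr, one_mul, neg_mul,
      Finset.sum_neg_distrib]
    ring
  have hWq : ∀ x : ℂ, Pool.Agent.H363Roots.Wq P (Sum.elim Z W) x = meanRatio P Z W x := by
    intro x
    unfold Pool.Agent.H363Roots.Wq meanRatio
    rw [Fintype.sum_sum_type]
    simp only [Pool.Agent.H363Roots.sg, Sum.elim_inl, Sum.elim_inr]
    push_cast
    simp only [one_mul, neg_mul, Finset.sum_neg_distrib]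
    ring
  have hreg' : Pool.Agent.H363Roots.RegQ P (Sum.elim Z W) η a := by
    refine ⟨h1, by rw [hVq]; exact h2, fun x hx => ?_⟩
    rw [hVq] at hx
    obtain ⟨h4, h5⟩ := h3 x hx
    refine ⟨fun i => ?_, by rw [hWq]; exact h5⟩
    rcases i with i | i
    · filter_upwards [h4 i] with ω hω
      exact hω.1
    · filter_upwards [h4 i] with ω hω
      exact hω.2
  exact hgood a ha hreg'

/-- Borel and Cantelli. -/
theorem ae_of_bound {Ω : Type} [MeasurableSpace Ω] {P : Measure Ω} [IsProbabilityMeasure P]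
    {E : ℕ → Ω → Prop} {K θ : ℝ} (hK : 0 < K) (hθ0 : 0 < θ) (hθ1 : θ < 1)
    (h : ∀ᶠ N in atTop, P {ω | ¬ E N ω} ≤ ENNReal.ofReal (K * θ ^ N)) :
    ∀ᵐ ω ∂P, ∀ᶠ N in atTop, E N ω := by
  obtain ⟨N0, hN0⟩ := eventually_atTop.mp h
  have h1 : ∀ᵐ ω ∂P, ∀ᶠ N in atTop, ω ∉ {ω | ¬ E (N + N0) ω} := by
    apply ae_eventually_notMem
    refine ne_top_of_le_ne_top ?_ (ENNReal.tsum_le_tsum fun N => hN0 (N + N0) (by omega))
    have hsum : Summable fun N : ℕ => K * θ ^ (N + N0) := by
      have : Summable fun N : ℕ => K * θ ^ N :=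
        (summable_geometric_of_lt_one hθ0.le hθ1).mul_left _
      exact (summable_nat_add_iff N0).mpr this
    rw [← ENNReal.ofReal_tsum_of_nonneg (fun N => by positivity) hsum]
    exact ENNReal.ofReal_ne_top
  filter_upwards [h1] with ω hω
  have h2 : ∀ᶠ N in atTop, E (N + N0) ω := by
    filter_upwards [hω] with N hN
    exact not_not.mp hN
  obtain ⟨N1, hN1⟩ := eventually_atTop.mp h2
  refine eventually_atTop.mpr ⟨N1 + N0, fun N hN => ?_⟩
  have := hN1 (N - N0) (by omega)
  rwa [Nat.sub_add_cancel (by omega)] at this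

theorem law_ae {Ω : Type} [MeasurableSpace Ω] {P : Measure Ω} {X : Ω → ℂ} {μ : Measure ℂ}
    (hX : Measurable X) (hlaw : P.map X = μ) {p : ℂ → Prop} (h : ∀ᵐ w ∂μ, p w) :
    ∀ᵐ ω ∂P, p (X ω) := by
  rw [← hlaw] at h
  exact ae_of_ae_map hX.aemeasurable h

theorem law_ball {Ω : Type} [MeasurableSpace Ω] {P : Measure Ω} {X : Ω → ℂ} {μ : Measure ℂ}
    (hX : Measurable X) (hlaw : P.map X = μ) {z : ℂ} {r : ℝ} {b : ENNReal}
    (h : μ {w | ‖w - z‖ ≤ r} ≤ b) : P {ω | ‖X ω - z‖ ≤ r} ≤ b := by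
  have hms : MeasurableSet {w : ℂ | ‖w - z‖ ≤ r} :=
    measurableSet_le (measurable_id.sub measurable_const).norm measurable_const
  rw [← hlaw, Measure.map_apply hX hms] at h
  exact h

theorem law_log {Ω : Type} [MeasurableSpace Ω] {P : Measure Ω} {X : Ω → ℂ} {μ : Measure ℂ}
    (hX : Measurable X) (hlaw : P.map X = μ) (z : ℂ) :
    ∫ ω, Real.log ‖z - X ω‖ ∂P = pot μ z := by
  rw [pot, ← hlaw, integral_map hX.aemeasurable]
  exact (Real.measurable_log.comp
    (measurable_const.sub measurable_id).norm).aestronglyMeasurable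

theorem law_inv {Ω : Type} [MeasurableSpace Ω] {P : Measure Ω} {X : Ω → ℂ} {μ : Measure ℂ}
    (hX : Measurable X) (hlaw : P.map X = μ) (z : ℂ) :
    ∫ ω, (z - X ω)⁻¹ ∂P = cauchy μ z := by
  rw [cauchy, ← hlaw, integral_map hX.aemeasurable]
  exact (measurable_const.sub measurable_id).inv.aestronglyMeasurable

theorem ae_of_ball {μ : Measure ℂ} {z : ℂ} {η : ℝ} (h : μ (Metric.ball z η) = 0) :
    ∀ᵐ w ∂μ, η ≤ ‖z - w‖ := by
  rw [ae_iff]
  refine measure_mono_null ?_ h
  intro w hw
  have hw' : ¬ η ≤ ‖z - w‖ := hw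
  rw [Metric.mem_ball, Complex.dist_eq, norm_sub_rev]
  exact not_le.mp hw'

theorem frost_rev {μ : Measure ℂ} [IsProbabilityMeasure μ] {s B : ℝ} (hs : 0 < s)
    (hB : ∀ (z : ℂ) (r : ℝ), 0 < r → μ {w | ‖w - z‖ ≤ r} ≤ ENNReal.ofReal (B * r ^ s))
    (z : ℂ) (r : ℝ) (hr : 0 < r) :
    μ {w | ‖z - w‖ ≤ r} ≤ ENNReal.ofReal (max B 1 * r ^ (min s 2)) := by
  rcases le_or_gt r 1 with hr1 | hr1
  · have h0 : μ {w | ‖z - w‖ ≤ r} ≤ ENNReal.ofReal (B * r ^ s) := by
      refine le_trans (measure_mono ?_) (hB z r hr)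
      intro w hw
      have h3 : ‖z - w‖ ≤ r := hw
      show ‖w - z‖ ≤ r
      rwa [norm_sub_rev]
    refine h0.trans (ENNReal.ofReal_le_ofReal ?_)
    have h1 : r ^ s ≤ r ^ (min s 2) := Real.rpow_le_rpow_of_exponent_ge hr hr1 (min_le_left _ _)
    calc B * r ^ s ≤ max B 1 * r ^ s := by gcongr; exact le_max_left _ _
      _ ≤ max B 1 * r ^ (min s 2) := by
        have : 0 ≤ max B 1 := le_trans (by norm_num) (le_max_right _ _)
        gcongr
  · have h2 : (1 : ℝ) ≤ max B 1 * r ^ (min s 2) := by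
      have h3 : (1 : ℝ) ≤ r ^ (min s 2) :=
        Real.one_le_rpow hr1.le (lt_min hs (by norm_num)).le
      calc (1 : ℝ) = 1 * 1 := by norm_num
        _ ≤ max B 1 * r ^ (min s 2) := by
          gcongr
          exact le_max_right _ _
    calc μ {w | ‖z - w‖ ≤ r} ≤ 1 := prob_le_one
      _ = ENNReal.ofReal 1 := ENNReal.ofReal_one.symm
      _ ≤ _ := ENNReal.ofReal_le_ofReal h2

theorem identical : Identical := by
  intro μ ν M s B β hμ hν hs hMμ hMν hBμ hBν hβ hzero hlev
  obtain ⟨η, hη, hηβ, hη0, hηlev⟩ := Pool.Agent.H363Roots.margin2 (β := β)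
    (lt_min hs (by norm_num)) (min_le_right s 2) (le_trans (by norm_num) (le_max_right B 1))
    hMμ hMν (frost_rev hs hBμ) (frost_rev hs hBν) hβ hzero hlev
  obtain ⟨K, θ, hK, hθ0, hθ1, h⟩ := general M s B η hs hη
  refine ⟨K, θ, η, hK, hθ0, hθ1, hη, ?_⟩
  intro Ω _ P Z W hP hX hind hlawZ hlawW
  have hZ : ∀ i, Measurable (Z i) := fun i => hX (Sum.inl i)
  have hW : ∀ i, Measurable (W i) := fun i => hX (Sum.inr i)
  have hbound : ∀ N : ℕ, 1 ≤ N →
      P {ω | ¬ HypFor (Win N β η) (fun i : Fin N => Z i ω) (fun i : Fin N => W i ω)} ≤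
        ENNReal.ofReal (K * θ ^ N) := by
    intro N hN
    have hN0 : (0 : ℝ) < N := by exact_mod_cast hN
    have hR : Points P M s B (Sum.elim (fun i : Fin N => Z i) (fun i : Fin N => W i)) := by
      have e : (Sum.elim (fun i : Fin N => Z i) (fun i : Fin N => W i)) =
          fun i : Fin N ⊕ Fin N => Sum.elim Z W (Sum.map (fun i : Fin N => (i : ℕ))
            (fun i : Fin N => (i : ℕ)) i) := by
        funext i
        rcases i with i | i <;> rfl
      have hinj : Function.Injective (Sum.map (fun i : Fin N => (i : ℕ))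
          (fun i : Fin N => (i : ℕ))) :=
        Sum.map_injective.mpr ⟨fun a b hab => Fin.ext hab, fun a b hab => Fin.ext hab⟩
      refine ⟨hP, ?_, ?_, ?_, ?_⟩
      · rw [e]
        exact fun i => hX _
      · rw [e]
        exact hind.precomp hinj
      · intro i
        rcases i with i | i
        · exact law_ae (hZ i) (hlawZ i) hMμ
        · exact law_ae (hW i) (hlawW i) hMν
      · intro i z r hr
        rcases i with i | i
        · exact law_ball (hZ i) (hlawZ i) (hBμ z r hr)
        · exact law_ball (hW i) (hlawW i) (hBν z r hr)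
    refine le_trans (measure_mono ?_) (h Ω P N (fun i : Fin N => Z i) (fun i : Fin N => W i) hN hR)
    intro ω hω hgood
    apply hω
    intro a ha hwin
    apply hgood a ha
    have hwin' : |Real.log ‖a‖ - β * N| ≤ η * N := hwin
    have hml : ∀ x : ℂ, meanLog P (fun i : Fin N => Z i) (fun i : Fin N => W i) x =
        N * (pot μ x - pot ν x) := by
      intro x
      rw [meanLog, Finset.sum_congr rfl fun (i : Fin N) _ => law_log (hZ i) (hlawZ i) x,
        Finset.sum_congr rfl fun (i : Fin N) _ => law_log (hW i) (hlawW i) x, Finset.sum_const,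
        Finset.sum_const, Finset.card_univ, Fintype.card_fin, nsmul_eq_mul, nsmul_eq_mul]
      ring
    have hmr : ∀ x : ℂ, meanRatio P (fun i : Fin N => Z i) (fun i : Fin N => W i) x =
        N * (cauchy μ x - cauchy ν x) := by
      intro x
      rw [meanRatio, Finset.sum_congr rfl fun (i : Fin N) _ => law_inv (hZ i) (hlawZ i) x,
        Finset.sum_congr rfl fun (i : Fin N) _ => law_inv (hW i) (hlawW i) x, Finset.sum_const,
        Finset.sum_const, Finset.card_univ, Fintype.card_fin, nsmul_eq_mul, nsmul_eq_mul]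
      ring
    have hcmp : ∀ x : ℂ, |pot μ x - pot ν x + β| * N ≤
        |meanLog P (fun i : Fin N => Z i) (fun i : Fin N => W i) x + Real.log ‖a‖| + η * N := by
      intro x
      have e1 : (pot μ x - pot ν x + β) * N =
          (meanLog P (fun i : Fin N => Z i) (fun i : Fin N => W i) x + Real.log ‖a‖) -
            (Real.log ‖a‖ - β * N) := by
        rw [hml]
        ring
      have e2 : |pot μ x - pot ν x + β| * N = |(pot μ x - pot ν x + β) * N| := by
        rw [abs_mul, abs_of_pos hN0]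
      rw [e2, e1]
      exact (abs_sub _ _).trans (by linarith)
    refine ⟨?_, ?_, fun x hx => ?_⟩
    · have e1 : |β| * N ≤ |Real.log ‖a‖| + |Real.log ‖a‖ - β * N| := by
        have e2 : β * N = Real.log ‖a‖ - (Real.log ‖a‖ - β * N) := by ring
        calc |β| * N = |β * N| := by rw [abs_mul, abs_of_pos hN0]
          _ = |Real.log ‖a‖ - (Real.log ‖a‖ - β * N)| := by rw [← e2]
          _ ≤ _ := abs_sub _ _
      have e3 : 2 * η * N ≤ |β| * N := by gcongr
      linarith
    · have e1 := hcmp 0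
      have e3 : 2 * η * N ≤ |pot μ 0 - pot ν 0 + β| * N := by
        gcongr
        exact hη0
      linarith
    · have e1 := hcmp x
      have e2 : |pot μ x - pot ν x + β| * N ≤ 2 * η * N := by linarith
      obtain ⟨h1, h2, h3⟩ := hηlev x (le_of_mul_le_mul_right e2 hN0)
      refine ⟨fun i => ?_, ?_⟩
      · filter_upwards [law_ae (hZ i) (hlawZ i) (ae_of_ball h1),
          law_ae (hW i) (hlawW i) (ae_of_ball h2)] with ω h4 h5
        exact ⟨h4, h5⟩
      · rw [hmr, norm_mul, Complex.norm_natCast, mul_comm]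
        gcongr
        exact h3
  refine ⟨hbound, ae_of_bound hK hθ0 hθ1 ?_⟩
  filter_upwards [eventually_ge_atTop 1] with N hN
  exact hbound N hN

/-- (1) Let `s, η > 0` and let `M`, `B` be real. There are `K > 0` and `0 < θ < 1` such that for
all `N ≥ 1` and all independent random variables `Z 0, …, Z (N - 1)`, `W 0, …, W (N - 1)` which are
bounded by `M` and whose laws give mass at most `B r ^ s` to every disc of radius `r`, the rational
map `R` with the zeros `Z i` and the poles `W i` has the following property. Outside an event of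
probability at most `K θ ^ N`, the map `a R` is hyperbolic for all `a ≠ 0` such that `V`, the mean
of `log |a R|`, satisfies `|V ∞| ≥ η N`, `|V 0| ≥ η N`, and every `x` with `|V x| ≤ η N` has
distance at least `η` from the zeros and poles (almost surely) and the mean of `R' x / R x` has
modulus at least `η N`.
(2) Let `μ`, `ν` be probability laws on the disc of radius `M` which give mass at most `B r ^ s` to
every disc of radius `r`, let `U` be the difference of their logarithmic potentials, and let `β ≠ 0`,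
`U 0 ≠ -β`, such that no `x` with `U x = -β` is in the support of `μ` or of `ν` or a zero of the
difference of their Cauchy transforms. There are `K, ρ > 0` and `0 < θ < 1` such that for all
independent `Z 0, Z 1, …` of law `μ` and `W 0, W 1, …` of law `ν` all the maps `a R`, where `R` has
the zeros `Z i` and the poles `W i` with `i < N`, and `|log |a| - β N| ≤ ρ N`, are hyperbolic with
probability at least `1 - K θ ^ N` for every `N ≥ 1`, and almost surely for all but finitely many
`N`. -/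
theorem result : General ∧ Identical := ⟨general, identical⟩

end Pool.Agent.Results.MP_8f2e1c_an.RandomZerosPoles
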