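import Mathlib
import Pool.Agent.H363Roots.WinMain

/-!
# Rational maps with random zeros and poles: Gaussian tails for the bad multiples

Let `R` be the rational map of degree `N` whose zeros `Z i` and poles `W i` are independent random
variables in a disc, with laws which need neither densities nor be identical, the laws of `Z i` and
`W i` being equal. Then all the multiples `a R` with `|log |a|| ≥ C √(N log N)` are hyperbolic,
almost surely for all large `N`; a bad `a` with `|log |a|| ≥ Λ` has probability at most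
`K N ^ k e ^ (- c Λ ^ 2 / N)`.
-/

set_option autoImplicit false

open Polynomial Filter Topology MeasureTheory ProbabilityTheory

namespace Pool.Agent.Results.MP_8f2e1c_an.SquareRootWindow

/-- `P / Q` is in lowest terms and every critical point (point of the Riemann sphere where the map
is not locally injective) has an orbit converging to an attracting periodic cycle. This is word
for word the condition of the frozen statement `S05373`. -/
def Hyperbolic (P Q : Polynomial ℂ) : Prop :=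
  IsCoprime P Q ∧ ∃ f : OnePoint ℂ → OnePoint ℂ, Continuous f ∧
    (∀ z : ℂ, Q.eval z ≠ 0 →
      f (OnePoint.some z) = OnePoint.some (P.eval z / Q.eval z)) ∧
    ∀ c : OnePoint ℂ, (¬ ∃ U ∈ nhds c, Set.InjOn f U) →
      ∃ z : OnePoint ℂ, ∃ n : ℕ, 0 < n ∧ f^[n] z = z ∧
        (∃ U ∈ nhds z, ∀ w ∈ U,
          Filter.Tendsto (fun k : ℕ => f^[n * k] w) Filter.atTop (nhds z)) ∧
        Filter.Tendsto (fun k : ℕ => f^[n * k] c) Filter.atTop (nhds z)

/-- The monic polynomial with roots `z i`. -/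
noncomputable def withRoots {N : ℕ} (z : Fin N → ℂ) : ℂ[X] := ∏ i, (X - C (z i))

/-- The `X i` are independent random variables on the probability space `(Ω, P)` with values in the
disc of radius `M`, and every disc of radius `r` has probability at most `B r ^ s` for each of
them. -/
def Points {Ω ι : Type} [MeasurableSpace Ω] (P : Measure Ω) (M s B : ℝ) (X : ι → Ω → ℂ) : Prop :=
  IsProbabilityMeasure P ∧ (∀ i, Measurable (X i)) ∧ iIndepFun X P ∧
    (∀ i, ∀ᵐ ω ∂P, ‖X i ω‖ ≤ M) ∧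
    ∀ (i : ι) (z : ℂ) (r : ℝ), 0 < r → P {ω | ‖X i ω - z‖ ≤ r} ≤ ENNReal.ofReal (B * r ^ s)

/-- The mean of `log |R x|`, where `R` has the zeros `Z i` and the poles `W i`. -/
noncomputable def meanLog {Ω : Type} [MeasurableSpace Ω] (P : Measure Ω) {N : ℕ}
    (Z W : Fin N → Ω → ℂ) (x : ℂ) : ℝ :=
  (∑ i, ∫ ω, Real.log ‖x - Z i ω‖ ∂P) - ∑ i, ∫ ω, Real.log ‖x - W i ω‖ ∂P

/-- The mean of `log |a R x|` is at least `Λ` for all `x` in the plane, or at most `-Λ` for all
`x`. -/
def Gap {Ω : Type} [MeasurableSpace Ω] (P : Measure Ω) {N : ℕ} (Z W : Fin N → Ω → ℂ) (Λ : ℝ)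
    (a : ℂ) : Prop :=
  (∀ x : ℂ, Λ ≤ meanLog P Z W x + Real.log ‖a‖) ∨ (∀ x : ℂ, meanLog P Z W x + Real.log ‖a‖ ≤ -Λ)

/-- `a R` is hyperbolic for all `a ≠ 0` with the property `A`, where `R` has the zeros `z i` and the
poles `w i`. -/
def HypFor {N : ℕ} (A : ℂ → Prop) (z w : Fin N → ℂ) : Prop :=
  ∀ a : ℂ, a ≠ 0 → A a → Hyperbolic (C a * withRoots z) (withRoots w)

theorem frost_two {s B : ℝ} {Ω : Type} [MeasurableSpace Ω] {P : Measure Ω}
    [IsProbabilityMeasure P] {X : Ω → ℝ} (hs : 0 < s)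
    (hB : ∀ r : ℝ, 0 < r → P {ω | X ω ≤ r} ≤ ENNReal.ofReal (B * r ^ s)) {r : ℝ} (hr : 0 < r) :
    P {ω | X ω ≤ r} ≤ ENNReal.ofReal (max B 1 * r ^ (min s 2)) := by
  rcases le_or_gt r 1 with hr1 | hr1
  · refine (hB r hr).trans (ENNReal.ofReal_le_ofReal ?_)
    have h1 : r ^ s ≤ r ^ (min s 2) := Real.rpow_le_rpow_of_exponent_ge hr hr1 (min_le_left _ _)
    calc B * r ^ s ≤ max B 1 * r ^ s := by gcongr; exact le_max_left _ _
      _ ≤ max B 1 * r ^ (min s 2) := by
        have : 0 ≤ max B 1 := le_trans (by norm_num) (le_max_right _ _)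
        gcongr
  · have h2 : (1 : ℝ) ≤ max B 1 * r ^ (min s 2) := by
      have h3 : (1 : ℝ) ≤ r ^ (min s 2) :=
        Real.one_le_rpow hr1.le (lt_min hs (by norm_num)).le
      calc (1 : ℝ) = 1 * 1 := by norm_num
        _ ≤ max B 1 * r ^ (min s 2) := by
          gcongr
          exact le_max_right _ _
    calc P {ω | X ω ≤ r} ≤ 1 := prob_le_one
      _ = ENNReal.ofReal 1 := ENNReal.ofReal_one.symm
      _ ≤ _ := ENNReal.ofReal_le_ofReal h2

theorem meanLog_zero {Ω : Type} [MeasurableSpace Ω] {P : Measure Ω} {N : ℕ} {Z W : Fin N → Ω → ℂ}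
    (hX : ∀ i, Measurable (Sum.elim Z W i)) (hlaw : ∀ i, P.map (Z i) = P.map (W i)) (x : ℂ) :
    meanLog P Z W x = 0 := by
  have hms : Measurable fun w : ℂ => Real.log ‖x - w‖ :=
    Real.measurable_log.comp (measurable_const.sub measurable_id).norm
  have h1 : ∀ i, ∫ ω, Real.log ‖x - Z i ω‖ ∂P = ∫ ω, Real.log ‖x - W i ω‖ ∂P := by
    intro i
    have e1 := integral_map (μ := P) (hX (Sum.inl i)).aemeasurable
      (f := fun w : ℂ => Real.log ‖x - w‖) hms.aestronglyMeasurable
    have e2 := integral_map (μ := P) (hX (Sum.inr i)).aemeasurable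
      (f := fun w : ℂ => Real.log ‖x - w‖) hms.aestronglyMeasurable
    simp only [Sum.elim_inl, Sum.elim_inr] at e1 e2
    rw [← e1, ← e2, hlaw i]
  rw [meanLog, Finset.sum_congr rfl fun i _ => h1 i, sub_self]

theorem main (M s B : ℝ) (hs : 0 < s) :
    ∃ (K c : ℝ) (k : ℕ), 0 < K ∧ 0 < c ∧
      ∀ (Ω : Type) [MeasurableSpace Ω] (P : Measure Ω) (N : ℕ) (Z W : Fin N → Ω → ℂ), 1 ≤ N →
        Points P M s B (Sum.elim Z W) → ∀ Λ : ℝ, 0 < Λ → Λ ≤ N →
          P {ω | ¬ HypFor (Gap P Z W Λ) (fun i => Z i ω) (fun i => W i ω)} ≤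
            ENNReal.ofReal (K * N ^ k * Real.exp (-(c * Λ ^ 2 / N))) ∧
          ((∀ i, P.map (Z i) = P.map (W i)) →
            P {ω | ¬ HypFor (fun a => Λ ≤ |Real.log ‖a‖|) (fun i => Z i ω) (fun i => W i ω)} ≤
              ENNReal.ofReal (K * N ^ k * Real.exp (-(c * Λ ^ 2 / N)))) := by
  obtain ⟨K, c, k, hK, hc, h⟩ := Pool.Agent.H363Roots.mainW0 (max M 0) (min s 2) (max B 1)
    (le_max_right _ _) (le_trans (by norm_num) (le_max_right _ _)) (lt_min hs (by norm_num))
    (min_le_right _ _)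
  refine ⟨K, c, k, hK, hc, ?_⟩
  intro Ω _ P N Z W hN hR Λ hΛ hΛN
  obtain ⟨hP, hX, hind, hM, hB⟩ := hR
  have hmain : P {ω | ¬ HypFor (Gap P Z W Λ) (fun i => Z i ω) (fun i => W i ω)} ≤
      ENNReal.ofReal (K * N ^ k * Real.exp (-(c * Λ ^ 2 / N))) := by
    refine le_trans (measure_mono ?_) (h Ω P N (Sum.elim Z W) hN hX hind (fun i => by
      filter_upwards [hM i] with ω hω
      exact hω.trans (le_max_left _ _)) (fun i z r hr => frost_two hs (hB i z) hr) Λ hΛ hΛN)
    intro ω hω hgood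
    apply hω
    intro a ha hgap
    have hVq : ∀ x : ℂ, Pool.Agent.H363Roots.Vq P (Sum.elim Z W) x = meanLog P Z W x := by
      intro x
      unfold Pool.Agent.H363Roots.Vq meanLog
      rw [Fintype.sum_sum_type]
      simp only [Pool.Agent.H363Roots.sg, Sum.elim_inl, Sum.elim_inr, one_mul, neg_mul,
        Finset.sum_neg_distrib]
      ring
    have hgap' : Pool.Agent.H363Roots.GapQ P (Sum.elim Z W) Λ a := by
      rcases hgap with h1 | h1
      · exact Or.inl fun x => by rw [hVq]; exact h1 x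
      · exact Or.inr fun x => by rw [hVq]; exact h1 x
    exact hgood a ha hgap'
  refine ⟨hmain, fun hlaw => le_trans (measure_mono ?_) hmain⟩
  intro ω hω hgood
  apply hω
  intro a ha hab
  apply hgood a ha
  rcases le_total 0 (Real.log ‖a‖) with h1 | h1
  · left
    intro x
    rw [meanLog_zero hX hlaw, zero_add]
    rwa [abs_of_nonneg h1] at hab
  · right
    intro x
    rw [meanLog_zero hX hlaw, zero_add]
    rw [abs_of_nonpos h1] at hab
    linarith

/-- Borel and Cantelli. -/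
theorem ae_of_bound {Ω : Type} [MeasurableSpace Ω] {P : Measure Ω}
    {E : ℕ → Ω → Prop} {b : ℕ → ℝ} (hb0 : ∀ N, 0 ≤ b N) (hb : Summable b)
    (h : ∀ᶠ N in atTop, P {ω | ¬ E N ω} ≤ ENNReal.ofReal (b N)) :
    ∀ᵐ ω ∂P, ∀ᶠ N in atTop, E N ω := by
  obtain ⟨N0, hN0⟩ := eventually_atTop.mp h
  have h1 : ∀ᵐ ω ∂P, ∀ᶠ N in atTop, ω ∉ {ω | ¬ E (N + N0) ω} := by
    apply ae_eventually_notMem
    refine ne_top_of_le_ne_top ?_ (ENNReal.tsum_le_tsum fun N => hN0 (N + N0) (by omega))
    rw [← ENNReal.ofReal_tsum_of_nonneg (fun N => hb0 _) ((summable_nat_add_iff N0).mpr hb)]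
    exact ENNReal.ofReal_ne_top
  filter_upwards [h1] with ω hω
  have h2 : ∀ᶠ N in atTop, E (N + N0) ω := by
    filter_upwards [hω] with N hN
    exact not_not.mp hN
  obtain ⟨N1, hN1⟩ := eventually_atTop.mp h2
  refine eventually_atTop.mpr ⟨N1 + N0, fun N hN => ?_⟩
  have := hN1 (N - N0) (by omega)
  rwa [Nat.sub_add_cancel (by omega)] at this

theorem ev_le {C : ℝ} : ∀ᶠ N : ℕ in atTop, C * Real.sqrt (N * Real.log N) ≤ N := by
  have h1 : Tendsto (fun x : ℝ => Real.log x / x) atTop (𝓝 0) := by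
    have := Real.isLittleO_log_id_atTop.tendsto_div_nhds_zero
    exact this
  have h2 := (h1.comp tendsto_natCast_atTop_atTop).const_mul (C ^ 2)
  rw [mul_zero] at h2
  have h3 := h2.eventually_le_const (by norm_num : (0 : ℝ) < 1)
  filter_upwards [h3, eventually_ge_atTop 1] with N hN hN1
  have hN0 : (0 : ℝ) < N := by exact_mod_cast hN1
  have hN1' : (1 : ℝ) ≤ N := by exact_mod_cast hN1
  have hlog : 0 ≤ Real.log N := Real.log_nonneg hN1'
  simp only [Function.comp_apply] at hN
  rcases le_or_gt C 0 with hC | hC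
  · have : C * Real.sqrt (N * Real.log N) ≤ 0 :=
      mul_nonpos_of_nonpos_of_nonneg hC (Real.sqrt_nonneg _)
    linarith
  · have h4 : C * Real.sqrt (N * Real.log N) = Real.sqrt (C ^ 2 * (N * Real.log N)) := by
      rw [Real.sqrt_mul (sq_nonneg C), Real.sqrt_sq hC.le]
    rw [h4]
    refine Real.sqrt_le_iff.mpr ⟨hN0.le, ?_⟩
    have h5 : C ^ 2 * (Real.log N / N) * (N : ℝ) ^ 2 ≤ 1 * (N : ℝ) ^ 2 := by gcongr
    have h6 : C ^ 2 * (N * Real.log N) = C ^ 2 * (Real.log N / N) * (N : ℝ) ^ 2 := by field_simp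
    rw [h6]
    linarith

/-- Let `s > 0` and let `M`, `B` be real. There are `K, c, C > 0` and `k` with the following
properties. For all `N ≥ 1` let `Z 0, …, Z (N - 1)`, `W 0, …, W (N - 1)` be independent random
variables which are bounded by `M` and whose laws give mass at most `B r ^ s` to every disc of
radius `r`, let `R` be the rational map with the zeros `Z i` and the poles `W i`, let `V` be the mean
of `log |R|`, and let `0 < Λ ≤ N`.
(1) Outside an event of probability at most `K N ^ k e ^ (- c Λ ^ 2 / N)`, the map `a R` is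
hyperbolic for all `a ≠ 0` such that `V + log |a| ≥ Λ` on the plane or `V + log |a| ≤ -Λ` on the
plane.
(2) If `Z i` and `W i` have the same law for all `i` then, outside an event of probability at most
`K N ^ k e ^ (- c Λ ^ 2 / N)`, the map `a R` is hyperbolic for all `a ≠ 0` with
`|log |a|| ≥ Λ`.
(3) For infinite sequences `Z`, `W` of such random variables, `Z i` and `W i` with the same law,
almost surely for all but finitely many `N` the map `a R` is hyperbolic for all `a ≠ 0` with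
`|log |a|| ≥ C √(N log N)`, where `R` has the zeros `Z i` and the poles `W i`, `i < N`. -/
theorem result :
    ∀ M s B : ℝ, 0 < s → ∃ (K c C₀ : ℝ) (k : ℕ), 0 < K ∧ 0 < c ∧ 0 < C₀ ∧
      (∀ (Ω : Type) [MeasurableSpace Ω] (P : Measure Ω) (N : ℕ) (Z W : Fin N → Ω → ℂ), 1 ≤ N →
        Points P M s B (Sum.elim Z W) → ∀ Λ : ℝ, 0 < Λ → Λ ≤ N →
          P {ω | ¬ HypFor (Gap P Z W Λ) (fun i => Z i ω) (fun i => W i ω)} ≤
            ENNReal.ofReal (K * N ^ k * Real.exp (-(c * Λ ^ 2 / N))) ∧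
          ((∀ i, P.map (Z i) = P.map (W i)) →
            P {ω | ¬ HypFor (fun a => Λ ≤ |Real.log ‖a‖|) (fun i => Z i ω) (fun i => W i ω)} ≤
              ENNReal.ofReal (K * N ^ k * Real.exp (-(c * Λ ^ 2 / N))))) ∧
      ∀ (Ω : Type) [MeasurableSpace Ω] (P : Measure Ω) (Z W : ℕ → Ω → ℂ),
        Points P M s B (Sum.elim Z W) → (∀ i, P.map (Z i) = P.map (W i)) →
        ∀ᵐ ω ∂P, ∀ᶠ N : ℕ in atTop,
          HypFor (fun a => C₀ * Real.sqrt (N * Real.log N) ≤ |Real.log ‖a‖|)
            (fun i : Fin N => Z i ω) (fun i : Fin N => W i ω) := by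
  intro M s B hs
  obtain ⟨K, c, k, hK, hc, h⟩ := main M s B hs
  refine ⟨K, c, Real.sqrt ((k + 2) / c), k, hK, hc, by positivity, h, ?_⟩
  intro Ω _ P Z W hR hlaw
  have hR' : ∀ N : ℕ, Points P M s B
      (Sum.elim (fun i : Fin N => Z i) (fun i : Fin N => W i)) := by
    intro N
    obtain ⟨hP, hX, hind, hM, hB⟩ := hR
    have e : (Sum.elim (fun i : Fin N => Z i) (fun i : Fin N => W i)) =
        fun i : Fin N ⊕ Fin N => Sum.elim Z W (Sum.map (fun i : Fin N => (i : ℕ))
          (fun i : Fin N => (i : ℕ)) i) := by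
      funext i
      rcases i with i | i <;> rfl
    have hinj : Function.Injective (Sum.map (fun i : Fin N => (i : ℕ))
        (fun i : Fin N => (i : ℕ))) :=
      Sum.map_injective.mpr ⟨fun a b hab => Fin.ext hab, fun a b hab => Fin.ext hab⟩
    rw [e]
    exact ⟨hP, fun i => hX _, hind.precomp hinj, fun i => hM _, fun i => hB _⟩
  refine ae_of_bound (b := fun N : ℕ => K * (1 / (N : ℝ) ^ 2)) (fun N => by positivity)
    ((Real.summable_one_div_nat_pow.mpr (by norm_num)).mul_left K) ?_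
  filter_upwards [eventually_ge_atTop 2, ev_le (C := Real.sqrt ((k + 2) / c))] with N hN2 hle
  have hN1 : 1 ≤ N := by omega
  have hN2' : (2 : ℝ) ≤ N := by exact_mod_cast hN2
  have hN0 : (0 : ℝ) < N := by linarith
  have hlog : 0 < Real.log N := Real.log_pos (by linarith)
  have h1 := (h Ω P N (fun i : Fin N => Z i) (fun i : Fin N => W i) hN1 (hR' N)
    (Real.sqrt ((k + 2) / c) * Real.sqrt (N * Real.log N)) (by positivity) hle).2
    (fun i => hlaw i)
  refine h1.trans (ENNReal.ofReal_le_ofReal (le_of_eq ?_))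
  have h2 : c * (Real.sqrt ((k + 2) / c) * Real.sqrt (N * Real.log N)) ^ 2 / N =
      (k + 2) * Real.log N := by
    rw [mul_pow, Real.sq_sqrt (by positivity), Real.sq_sqrt (by positivity)]
    field_simp
  have h3 : Real.exp (-((k + 2) * Real.log N)) = 1 / (N : ℝ) ^ (k + 2) := by
    rw [Real.exp_neg, one_div]
    congr 1
    have h4 : ((k : ℝ) + 2) * Real.log N = ((k + 2 : ℕ) : ℝ) * Real.log N := by push_cast; ring
    rw [h4, Real.exp_nat_mul, Real.exp_log hN0]
  rw [h2, h3, pow_add]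
  field_simp

end Pool.Agent.Results.MP_8f2e1c_an.SquareRootWindow
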